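import Mathlib

set_option autoImplicit false

open Polynomial

namespace Pool.Agent.Helper64.RS

/-- the nonzero polynomials of degree at most `n` with coefficients in `{-1, 0, 1}` -/
def PN (n : ℕ) : Set ℤ[X] :=
  {P | P ≠ 0 ∧ P.natDegree ≤ n ∧ ∀ k, P.coeff k = -1 ∨ P.coeff k = 0 ∨ P.coeff k = 1}

abbrev φ : ℤ →+* ℂ := Int.castRingHom ℂ

lemma PN.lead {n : ℕ} {Q : ℤ[X]} (hQ : Q ∈ PN n) : Q.leadingCoeff = -1 ∨ Q.leadingCoeff = 1 := by
  rcases hQ.2.2 Q.natDegree with h | h | h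
  · exact Or.inl h
  · exact absurd (leadingCoeff_eq_zero.1 h) hQ.1
  · exact Or.inr h

lemma PN.coeff_norm {n : ℕ} {Q : ℤ[X]} (hQ : Q ∈ PN n) (k : ℕ) : ‖((Q.coeff k : ℤ) : ℂ)‖ ≤ 1 := by
  rcases hQ.2.2 k with h | h | h <;> rw [h] <;> simp

lemma PN.isIntegral {n : ℕ} {Q : ℤ[X]} (hQ : Q ∈ PN n) {y : ℂ} (hy : aeval y Q = 0) :
    IsIntegral ℤ y := by
  rcases PN.lead hQ with h | h
  · refine ⟨-Q, ?_, ?_⟩
    · rw [Monic, leadingCoeff_neg, h]; norm_num
    · rw [eval₂_neg, ← aeval_def, hy, neg_zero]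
  · exact ⟨Q, h, by rw [← aeval_def, hy]⟩

/-- the roots are smaller than 2 -/
lemma PN.norm_lt {n : ℕ} {Q : ℤ[X]} (hQ : Q ∈ PN n) {y : ℂ} (hy : aeval y Q = 0) : ‖y‖ ≤ 2 := by
  by_contra hcon
  push Not at hcon
  have h1 : ∑ k ∈ Finset.range (Q.natDegree + 1), ((Q.coeff k : ℤ) : ℂ) * y ^ k = 0 := by
    rw [aeval_eq_sum_range] at hy
    rw [← hy]
    refine Finset.sum_congr rfl fun k _ => ?_
    rw [zsmul_eq_mul]
  rw [Finset.sum_range_succ] at h1
  have h2 : ‖((Q.coeff Q.natDegree : ℤ) : ℂ) * y ^ Q.natDegree‖ = ‖y‖ ^ Q.natDegree := by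
    rw [norm_mul, norm_pow]
    rcases PN.lead hQ with h | h
    · rw [coeff_natDegree, h]; simp
    · rw [coeff_natDegree, h]; simp
  have h3 : ‖((Q.coeff Q.natDegree : ℤ) : ℂ) * y ^ Q.natDegree‖ ≤
      ∑ k ∈ Finset.range Q.natDegree, ‖y‖ ^ k := by
    rw [eq_neg_of_add_eq_zero_right h1, norm_neg]
    refine (norm_sum_le _ _).trans (Finset.sum_le_sum fun k _ => ?_)
    rw [norm_mul, norm_pow]
    exact mul_le_of_le_one_left (by positivity) (PN.coeff_norm hQ k)
  rw [h2] at h3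
  have h4 : (∑ k ∈ Finset.range Q.natDegree, ‖y‖ ^ k) * (‖y‖ - 1) = ‖y‖ ^ Q.natDegree - 1 :=
    geom_sum_mul _ _
  have h5 : 0 ≤ ∑ k ∈ Finset.range Q.natDegree, ‖y‖ ^ k := Finset.sum_nonneg fun _ _ => by positivity
  nlinarith

lemma PN.sum_norm {n : ℕ} {Q : ℤ[X]} (hQ : Q ∈ PN n) :
    (Q.map φ).mahlerMeasure ≤ n + 1 := by
  refine (mahlerMeasure_le_sum_norm_coeff _).trans ?_
  rw [Polynomial.sum_def]
  have h1 : (Q.map φ).support ⊆ Finset.range (n + 1) := by
    intro k hk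
    rw [Finset.mem_range]
    have := le_natDegree_of_mem_supp k hk
    have h2 : (Q.map φ).natDegree ≤ Q.natDegree := natDegree_map_le
    have := hQ.2.1
    omega
  calc ∑ k ∈ (Q.map φ).support, ‖(Q.map φ).coeff k‖
      ≤ ∑ k ∈ Finset.range (n + 1), ‖(Q.map φ).coeff k‖ :=
        Finset.sum_le_sum_of_subset_of_nonneg h1 fun _ _ _ => norm_nonneg _
    _ ≤ ∑ k ∈ Finset.range (n + 1), (1 : ℝ) := by
        refine Finset.sum_le_sum fun k _ => ?_
        rw [coeff_map]
        exact PN.coeff_norm hQ k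
    _ = n + 1 := by simp

lemma one_le_prod_max (s : Multiset ℂ) : 1 ≤ (s.map (fun a ↦ max 1 ‖a‖)).prod := by
  induction s using Multiset.induction_on with
  | empty => simp
  | cons a s ih =>
    rw [Multiset.map_cons, Multiset.prod_cons]
    exact one_le_mul_of_one_le_of_one_le (le_max_left _ _) ih

lemma prod_le_of_le {s r : Multiset ℂ} (h : s ≤ r) :
    (s.map (fun a ↦ max 1 ‖a‖)).prod ≤ (r.map (fun a ↦ max 1 ‖a‖)).prod := by
  obtain ⟨u, rfl⟩ := Multiset.le_iff_exists_add.1 h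
  rw [Multiset.map_add, Multiset.prod_add]
  have h1 := one_le_prod_max s
  have h2 := one_le_prod_max u
  nlinarith

lemma prod_roots_le {n : ℕ} {Q B : ℤ[X]} (hQ : Q ∈ PN n) (hB : B ∣ Q) :
    ((B.map φ).roots.map (fun a ↦ max 1 ‖a‖)).prod ≤ n + 1 := by
  have hQ0 : Q.map φ ≠ 0 := (Polynomial.map_ne_zero_iff (RingHom.injective_int φ)).2 hQ.1
  have h1 : (B.map φ).roots ≤ (Q.map φ).roots :=
    roots.le_of_dvd hQ0 (Polynomial.map_dvd φ hB)
  refine (prod_le_of_le h1).trans (le_trans ?_ (PN.sum_norm hQ))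
  refine prod_max_one_norm_roots_le_mahlerMeasure_of_one_le_leadingCoeff ?_
  rw [leadingCoeff_map_of_injective (RingHom.injective_int φ)]
  rcases PN.lead hQ with h | h <;> rw [h] <;> simp

/-- the size of a sparse polynomial -/
lemma norm_eval_le {t L : ℕ} {D : ℤ[X]} (hD : D.natDegree ≤ L) (hs : D.support.card ≤ 2 * t)
    (hc : ∀ k, |D.coeff k| ≤ 2) (z : ℂ) : ‖(D.map φ).eval z‖ ≤ (4 * t) * (max 1 ‖z‖) ^ L := by
  rw [eval_map, eval₂_eq_sum, Polynomial.sum_def]
  calc ‖∑ k ∈ D.support, φ (D.coeff k) * z ^ k‖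
      ≤ ∑ k ∈ D.support, ‖φ (D.coeff k) * z ^ k‖ := norm_sum_le _ _
    _ ≤ ∑ k ∈ D.support, 2 * (max 1 ‖z‖) ^ L := by
        refine Finset.sum_le_sum fun k hk => ?_
        rw [norm_mul, norm_pow]
        have h1 : ‖φ (D.coeff k)‖ ≤ 2 := by
          have := hc k
          rw [eq_intCast, Complex.norm_intCast]
          exact_mod_cast this
        have h2 : ‖z‖ ^ k ≤ (max 1 ‖z‖) ^ L := by
          calc ‖z‖ ^ k ≤ (max 1 ‖z‖) ^ k := by gcongr; exact le_max_right _ _
            _ ≤ (max 1 ‖z‖) ^ L := by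
                apply pow_le_pow_right₀ (le_max_left _ _)
                exact (le_natDegree_of_mem_supp k hk).trans hD
        exact mul_le_mul h1 h2 (by positivity) (by norm_num)
    _ = D.support.card * (2 * (max 1 ‖z‖) ^ L) := by rw [Finset.sum_const, nsmul_eq_mul]
    _ ≤ (2 * t) * (2 * (max 1 ‖z‖) ^ L) := by
        gcongr
        exact_mod_cast hs
    _ = _ := by ring

lemma prod_le_aux {t L : ℕ} (ht : 1 ≤ t) (f : ℂ → ℝ) (hf0 : ∀ z, 0 ≤ f z)
    (hf : ∀ z, f z ≤ (4 * t) * (max 1 ‖z‖) ^ L) (s : Multiset ℂ) :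
    (s.map f).prod ≤ (4 * t) ^ (Multiset.card s) * ((s.map (fun a ↦ max 1 ‖a‖)).prod) ^ L := by
  induction s using Multiset.induction_on with
  | empty => simp
  | cons a s ih =>
    rw [Multiset.map_cons, Multiset.prod_cons, Multiset.map_cons, Multiset.prod_cons,
      Multiset.card_cons, mul_pow]
    have h0 : 0 ≤ (s.map f).prod := by
      refine Multiset.prod_nonneg fun x hx => ?_
      obtain ⟨z, -, rfl⟩ := Multiset.mem_map.1 hx
      exact hf0 z
    calc f a * (s.map f).prod ≤ ((4 * t) * (max 1 ‖a‖) ^ L) *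
          ((4 * t) ^ (Multiset.card s) * ((s.map (fun a ↦ max 1 ‖a‖)).prod) ^ L) :=
          mul_le_mul (hf a) ih h0 (by positivity)
      _ = _ := by ring

/-- the lower bound (Liouville) for sparse polynomials of small degree -/
lemma lower {n t L : ℕ} (ht : 1 ≤ t) {Q : ℤ[X]} (hQ : Q ∈ PN n) {y : ℂ} (hy : aeval y Q = 0)
    {D : ℤ[X]} (hD : D.natDegree ≤ L) (hs : D.support.card ≤ 2 * t)
    (hc : ∀ k, |D.coeff k| ≤ 2) (hDy : aeval y D ≠ 0) :
    1 ≤ ‖aeval y D‖ * ((4 * t) ^ n * (n + 1) ^ L) := by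
  have hint := PN.isIntegral hQ hy
  set B := minpoly ℤ y with hBdef
  have hBm : B.Monic := minpoly.monic hint
  have hBQ : B ∣ Q := minpoly.isIntegrallyClosed_dvd hint hy
  have hmap : (B.map φ).natDegree = B.natDegree := hBm.natDegree_map φ
  have hlead : (B.map φ).leadingCoeff = 1 := (hBm.map φ).leadingCoeff
  have hres := resultant_eq_prod_eval (B.map φ) (D.map φ) D.natDegree natDegree_map_le
    (IsAlgClosed.splits _)
  rw [hmap, hlead, one_pow, one_mul, resultant_map_map] at hres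
  have hB0 : B.map φ ≠ 0 := (hBm.map φ).ne_zero
  have hne : ((B.map φ).roots.map (D.map φ).eval).prod ≠ 0 := by
    rw [Ne, Multiset.prod_eq_zero_iff, Multiset.mem_map]
    rintro ⟨β, hβ, h0⟩
    have h1 : aeval β B = 0 := by
      have := (mem_roots hB0).1 hβ
      rw [IsRoot.def, eval_map] at this
      exact this
    have h2 : aeval β D = 0 := by
      rw [eval_map] at h0
      exact h0
    have hβi : IsIntegral ℤ β := ⟨B, hBm, h1⟩
    have h3 : minpoly ℤ β ∣ B := minpoly.isIntegrallyClosed_dvd hβi h1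
    have hirr : Irreducible B := minpoly.irreducible hint
    have h4 : Associated (minpoly ℤ β) B := by
      rcases (hirr.dvd_iff.1 h3) with h | h
      · exact absurd h (minpoly.not_isUnit ℤ β)
      · exact h.symm
    have h5 : B ∣ D := h4.symm.dvd.trans (minpoly.isIntegrallyClosed_dvd hβi h2)
    apply hDy
    obtain ⟨E, hE⟩ := h5
    rw [hE, map_mul, minpoly.aeval, zero_mul]
  have hone : 1 ≤ ‖((B.map φ).roots.map (D.map φ).eval).prod‖ := by
    rw [← hres] at hne ⊢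
    have h1 : resultant B D B.natDegree D.natDegree ≠ 0 := by
      intro h
      rw [h] at hne
      simp at hne
    rw [eq_intCast, Complex.norm_intCast]
    exact_mod_cast Int.one_le_abs h1
  have hyr : y ∈ (B.map φ).roots := by
    rw [mem_roots hB0, IsRoot.def, eval_map]
    exact minpoly.aeval ℤ y
  obtain ⟨s, hs'⟩ := Multiset.exists_cons_of_mem hyr
  have hcard : Multiset.card s ≤ n := by
    have h1 : Multiset.card (B.map φ).roots ≤ (B.map φ).natDegree := card_roots' _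
    rw [hs', Multiset.card_cons, hmap] at h1
    have h2 := natDegree_le_of_dvd hBQ hQ.1
    have := hQ.2.1
    omega
  have hprod : (s.map (fun a ↦ max 1 ‖a‖)).prod ≤ n + 1 := by
    refine (prod_le_of_le ?_).trans (prod_roots_le hQ hBQ)
    rw [hs']
    exact Multiset.le_cons_self _ _
  have hnorm : ‖((B.map φ).roots.map (D.map φ).eval).prod‖ =
      ‖aeval y D‖ * (s.map (fun z => ‖(D.map φ).eval z‖)).prod := by
    rw [hs', Multiset.map_cons, Multiset.prod_cons, norm_mul]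
    congr 1
    · rw [eval_map]; rfl
    · change (normHom : ℂ →*₀ ℝ) (Multiset.prod _) = _
      rw [map_multiset_prod, Multiset.map_map]
      rfl
  rw [hnorm] at hone
  refine hone.trans ?_
  gcongr
  refine (prod_le_aux ht _ (fun _ => norm_nonneg _) (norm_eval_le hD hs hc) s).trans ?_
  have h4 : (1 : ℝ) ≤ 4 * t := by
    have : (1 : ℝ) ≤ t := by exact_mod_cast ht
    linarith
  have h5 := one_le_prod_max s
  gcongr

end Pool.Agent.Helper64.RS
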