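import Mathlib
import Pool.Agent.Helper64.RS.A

set_option autoImplicit false

open Polynomial

namespace Pool.Agent.Helper64.RS

lemma pow_diff {x y : ℂ} (hx : ‖x‖ ≤ 2) (hy : ‖y‖ ≤ 2) (k : ℕ) :
    ‖y ^ k - x ^ k‖ ≤ k * 2 ^ k * ‖x - y‖ := by
  induction k with
  | zero => simp
  | succ k ih =>
    have h1 : y ^ (k + 1) - x ^ (k + 1) = y * (y ^ k - x ^ k) + (y - x) * x ^ k := by ring
    rw [h1]
    have h2 : ‖y * (y ^ k - x ^ k)‖ ≤ 2 * (k * 2 ^ k * ‖x - y‖) := by
      rw [norm_mul]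
      exact mul_le_mul hy ih (norm_nonneg _) (by norm_num)
    have h3 : ‖(y - x) * x ^ k‖ ≤ ‖x - y‖ * 2 ^ k := by
      rw [norm_mul, norm_pow, norm_sub_rev]
      gcongr
    have h4 : 0 ≤ ‖x - y‖ * 2 ^ k := by positivity
    refine (norm_add_le _ _).trans ((add_le_add h2 h3).trans ?_)
    push_cast
    rw [pow_succ]
    nlinarith

lemma sum_le (n : ℕ) : ∑ k ∈ Finset.range (n + 1), ((k : ℝ) * 2 ^ k) ≤ 4 ^ n := by
  have h2 : ∀ n : ℕ, ((n : ℝ) + 1) * 2 ≤ 3 * 2 ^ n := by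
    intro n
    induction n with
    | zero => norm_num
    | succ n ih =>
      push_cast
      rw [pow_succ]
      have : (1 : ℝ) ≤ 2 ^ n := one_le_pow₀ (by norm_num)
      nlinarith
  induction n with
  | zero => norm_num
  | succ n ih =>
    rw [Finset.sum_range_succ]
    have h4 : (4 : ℝ) ^ n = 2 ^ n * 2 ^ n := by rw [← mul_pow]; norm_num
    have h5 : (0 : ℝ) < 2 ^ n := by positivity
    have h6 := mul_le_mul_of_nonneg_right (h2 n) h5.le
    have e1 : (4 : ℝ) ^ (n + 1) = 4 * (2 ^ n * 2 ^ n) := by rw [pow_succ, h4]; ring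
    have e2 : (2 : ℝ) ^ (n + 1) = 2 ^ n * 2 := pow_succ 2 n
    rw [e1, e2]
    rw [h4] at ih
    push_cast
    nlinarith

/-- the value at a point near a root -/
lemma close {n : ℕ} {P : ℤ[X]} (hP : P ∈ PN n) {x y : ℂ} (hx : aeval x P = 0) (hy2 : ‖y‖ ≤ 2) :
    ‖aeval y P‖ ≤ 4 ^ n * ‖x - y‖ := by
  have hx2 := PN.norm_lt hP hx
  have h1 : aeval y P = ∑ k ∈ Finset.range (n + 1), ((P.coeff k : ℤ) : ℂ) * (y ^ k - x ^ k) := by
    have h2 : aeval y P = aeval y P - aeval x P := by rw [hx, sub_zero]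
    rw [h2, aeval_eq_sum_range' (Nat.lt_succ_of_le hP.2.1),
      aeval_eq_sum_range' (Nat.lt_succ_of_le hP.2.1), ← Finset.sum_sub_distrib]
    refine Finset.sum_congr rfl fun k _ => ?_
    rw [zsmul_eq_mul, zsmul_eq_mul, mul_sub]
  rw [h1]
  calc ‖∑ k ∈ Finset.range (n + 1), ((P.coeff k : ℤ) : ℂ) * (y ^ k - x ^ k)‖
      ≤ ∑ k ∈ Finset.range (n + 1), ((k : ℝ) * 2 ^ k) * ‖x - y‖ := by
        refine (norm_sum_le _ _).trans (Finset.sum_le_sum fun k _ => ?_)
        rw [norm_mul]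
        exact (mul_le_of_le_one_left (norm_nonneg _) (PN.coeff_norm hP k)).trans
          (pow_diff hx2 hy2 k)
    _ = (∑ k ∈ Finset.range (n + 1), ((k : ℝ) * 2 ^ k)) * ‖x - y‖ := by rw [Finset.sum_mul]
    _ ≤ 4 ^ n * ‖x - y‖ := by
        gcongr
        exact sum_le n

/-- coefficients with a subset of indices shifted -/
def shift (n : ℕ) (P : ℤ[X]) (T : Finset ℕ) : Fin (n + 1) → ZMod 3 :=
  fun k => (P.coeff k : ZMod 3) + if (k : ℕ) ∈ T then 1 else 0

lemma coeff_eq {a b : ℤ} (ha : a = -1 ∨ a = 0 ∨ a = 1) (hb : b = -1 ∨ b = 0 ∨ b = 1)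
    (h : (a : ZMod 3) = (b : ZMod 3)) : a = b := by
  rcases ha with rfl | rfl | rfl <;> rcases hb with rfl | rfl | rfl <;>
    first | rfl | (exfalso; revert h; decide)

/-- the key: near `y` the polynomials are a code -/
lemma key {n t L : ℕ} (ht : 1 ≤ t) (hn : 1 ≤ n) (hL : (n + 1) ^ L ≤ 2 ^ n) {Q : ℤ[X]}
    (hQ : Q ∈ PN n) {y : ℂ} (hy : aeval y Q = 0) (hdeg : L < (minpoly ℚ y).natDegree)
    {P P' : ℤ[X]} (hP : P ∈ PN n) (hP' : P' ∈ PN n) {x x' : ℂ} (hx : aeval x P = 0)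
    (hx' : aeval x' P' = 0) (hxy : ‖x - y‖ ≤ 1 / (100 * t) ^ n)
    (hxy' : ‖x' - y‖ ≤ 1 / (100 * t) ^ n) {T T' : Finset ℕ}
    (hT : T ∈ Finset.powersetCard t (Finset.range (L + 1)))
    (hT' : T' ∈ Finset.powersetCard t (Finset.range (L + 1)))
    (h : shift n P T = shift n P' T') : P = P' ∧ T = T' := by
  rw [Finset.mem_powersetCard] at hT hT'
  have hLn : L ≤ n := by
    by_contra hcon
    push Not at hcon
    have h1 : 2 ^ L ≤ (n + 1) ^ L := Nat.pow_le_pow_left (by omega) L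
    have h2 : 2 ^ n < 2 ^ L := Nat.pow_lt_pow_right (by norm_num) hcon
    omega
  have hPP : P = P' := by
    by_contra hne
    have hD0 : P - P' ≠ 0 := sub_ne_zero.2 hne
    have hco : ∀ k, k ∉ T ∪ T' → (P - P').coeff k = 0 := by
      intro k hk
      rw [Finset.mem_union, not_or] at hk
      rw [coeff_sub]
      by_cases hkn : k ≤ n
      · have h1 := congrFun h ⟨k, Nat.lt_succ_of_le hkn⟩
        simp only [shift, if_neg hk.1, if_neg hk.2, add_zero] at h1
        rw [coeff_eq (hP.2.2 k) (hP'.2.2 k) h1, sub_self]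
      · push Not at hkn
        rw [coeff_eq_zero_of_natDegree_lt (lt_of_le_of_lt hP.2.1 hkn),
          coeff_eq_zero_of_natDegree_lt (lt_of_le_of_lt hP'.2.1 hkn), sub_self]
    have hsub : (P - P').support ⊆ T ∪ T' := by
      intro k hk
      by_contra hcon
      exact (mem_support_iff.1 hk) (hco k hcon)
    have hcard : (P - P').support.card ≤ 2 * t := by
      refine (Finset.card_le_card hsub).trans ((Finset.card_union_le _ _).trans ?_)
      omega
    have hdegD : (P - P').natDegree ≤ L := by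
      rw [natDegree_le_iff_coeff_eq_zero]
      intro k hk
      apply hco
      intro hmem
      rcases Finset.mem_union.1 hmem with hm | hm
      · have := Finset.mem_range.1 (hT.1 hm)
        omega
      · have := Finset.mem_range.1 (hT'.1 hm)
        omega
    have hc2 : ∀ k, |(P - P').coeff k| ≤ 2 := by
      intro k
      rw [coeff_sub]
      rcases hP.2.2 k with h1 | h1 | h1 <;> rcases hP'.2.2 k with h2 | h2 | h2 <;>
        rw [h1, h2] <;> norm_num
    have hDy : aeval y (P - P') ≠ 0 := by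
      intro h0
      have h1 : aeval y ((P - P').map (Int.castRingHom ℚ)) = 0 := by
        rw [← h0]
        exact aeval_map_algebraMap ℚ y (P - P')
      have hD0' : (P - P').map (Int.castRingHom ℚ) ≠ 0 :=
        (Polynomial.map_ne_zero_iff (RingHom.injective_int (Int.castRingHom ℚ))).2 hD0
      have h2 := natDegree_le_of_dvd (minpoly.dvd ℚ y h1) hD0'
      have h3 : ((P - P').map (Int.castRingHom ℚ)).natDegree ≤ (P - P').natDegree :=
        natDegree_map_le
      omega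
    have hlow := lower ht hQ hy hdegD hcard hc2 hDy
    have hy2 := PN.norm_lt hQ hy
    have h1 := close hP hx hy2
    have h2 := close hP' hx' hy2
    have h3 : ‖aeval y (P - P')‖ ≤ 2 * (4 ^ n * (1 / (100 * t) ^ n)) := by
      rw [map_sub]
      refine (norm_sub_le _ _).trans ?_
      have h5 : (4 : ℝ) ^ n * ‖x - y‖ ≤ 4 ^ n * (1 / (100 * t) ^ n) := by gcongr
      have h6 : (4 : ℝ) ^ n * ‖x' - y‖ ≤ 4 ^ n * (1 / (100 * t) ^ n) := by gcongr
      linarith
    have ht0 : (0 : ℝ) < t := by exact_mod_cast ht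
    have h4 : ((n : ℝ) + 1) ^ L ≤ 2 ^ n := by exact_mod_cast hL
    have h5 : ‖aeval y (P - P')‖ * ((4 * t) ^ n * (n + 1) ^ L) ≤
        2 * (4 ^ n * (1 / (100 * t) ^ n)) * ((4 * t) ^ n * 2 ^ n) := by gcongr
    have h6 : 2 * ((4 : ℝ) ^ n * (1 / (100 * t) ^ n)) * ((4 * t) ^ n * 2 ^ n) =
        2 * (8 / 25) ^ n := by
      have e1 : (100 * (t : ℝ)) ^ n ≠ 0 := by positivity
      have e2 : ((8 : ℝ) / 25) ^ n * (100 * t) ^ n = 4 ^ n * ((4 * t) ^ n * 2 ^ n) := by
        rw [← mul_pow, ← mul_pow, ← mul_pow]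
        congr 1
        ring
      have e3 : 2 * ((4 : ℝ) ^ n * (1 / (100 * t) ^ n)) * ((4 * t) ^ n * 2 ^ n) =
          2 * ((4 ^ n * ((4 * t) ^ n * 2 ^ n)) / (100 * (t : ℝ)) ^ n) := by
        simp only [div_eq_mul_inv, one_mul]
        generalize ((100 * (t : ℝ)) ^ n)⁻¹ = w
        ring
      rw [e3, ← e2, mul_div_assoc, div_self e1, mul_one]
    have h7 : ((8 : ℝ) / 25) ^ n ≤ 8 / 25 := by
      calc ((8 : ℝ) / 25) ^ n ≤ (8 / 25) ^ 1 :=
            pow_le_pow_of_le_one (by norm_num) (by norm_num) hn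
        _ = 8 / 25 := pow_one _
    linarith
  refine ⟨hPP, ?_⟩
  subst hPP
  ext k
  by_cases hk : k ≤ L
  · have h1 := congrFun h ⟨k, by omega⟩
    simp only [shift, add_right_inj] at h1
    by_cases a : k ∈ T <;> by_cases b : k ∈ T' <;> simp [a, b] at h1 ⊢
  · constructor
    · intro hm
      have := Finset.mem_range.1 (hT.1 hm)
      omega
    · intro hm
      have := Finset.mem_range.1 (hT'.1 hm)
      omega

/-- the polynomials of `PN n` which have a root very near to a root of `Q` of degree more than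
`L` -/
def CloseRoots (t n L : ℕ) (Q : ℤ[X]) : Set ℤ[X] :=
  {P | P ∈ PN n ∧ ∃ x y : ℂ, aeval x P = 0 ∧ aeval y Q = 0 ∧ L < (minpoly ℚ y).natDegree ∧
    ‖x - y‖ ≤ 1 / (100 * t) ^ n}

lemma finite_close (t n L : ℕ) (Q : ℤ[X]) : (CloseRoots t n L Q).Finite := by
  refine Set.Finite.of_finite_image (f := fun P : ℤ[X] => shift n P ∅) (Set.toFinite _) ?_
  intro P hP P' hP' h
  have hp := hP.1
  have hp' := hP'.1
  ext k
  by_cases hk : k ≤ n
  · have h1 := congrFun h ⟨k, Nat.lt_succ_of_le hk⟩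
    simp only [shift, Finset.notMem_empty, if_false, add_zero] at h1
    exact coeff_eq (hp.2.2 k) (hp'.2.2 k) h1
  · push Not at hk
    rw [coeff_eq_zero_of_natDegree_lt (lt_of_le_of_lt hp.2.1 hk),
      coeff_eq_zero_of_natDegree_lt (lt_of_le_of_lt hp'.2.1 hk)]

theorem main {n t L : ℕ} (ht : 1 ≤ t) (hn : 1 ≤ n) (hL : (n + 1) ^ L ≤ 2 ^ n) {Q : ℤ[X]}
    (hQ : Q ∈ PN n) : (CloseRoots t n L Q).ncard * (L + 1).choose t ≤ n * 3 ^ (n + 1) := by
  classical
  have hex : ∀ P : ℤ[X], ∃ y : ℂ, P ∈ CloseRoots t n L Q → aeval y Q = 0 ∧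
      L < (minpoly ℚ y).natDegree ∧ ∃ x : ℂ, aeval x P = 0 ∧ ‖x - y‖ ≤ 1 / (100 * t) ^ n := by
    intro P
    by_cases hP : P ∈ CloseRoots t n L Q
    · obtain ⟨-, x, y, h1, h2, h3, h4⟩ := hP
      exact ⟨y, fun _ => ⟨h2, h3, x, h1, h4⟩⟩
    · exact ⟨0, fun h => absurd h hP⟩
  choose Y hY using hex
  let W : Set (ℤ[X] × Finset ℕ) :=
    CloseRoots t n L Q ×ˢ (Finset.powersetCard t (Finset.range (L + 1)) : Set (Finset ℕ))
  let f : ℤ[X] × Finset ℕ → ℂ × (Fin (n + 1) → ZMod 3) := fun p => (Y p.1, shift n p.1 p.2)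
  let R : Set (ℂ × (Fin (n + 1) → ZMod 3)) :=
    ((Q.map φ).roots.toFinset : Set ℂ) ×ˢ (Set.univ : Set (Fin (n + 1) → ZMod 3))
  have hQ0 : Q.map φ ≠ 0 := (Polynomial.map_ne_zero_iff (RingHom.injective_int φ)).2 hQ.1
  have hRfin : R.Finite := (Finset.finite_toSet _).prod Set.finite_univ
  have hle : W.ncard ≤ R.ncard := by
    refine Set.ncard_le_ncard_of_injOn f ?_ ?_ hRfin
    · rintro ⟨P, T⟩ hp
      obtain ⟨h1, -, -⟩ := hY P hp.1
      refine ⟨?_, Set.mem_univ _⟩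
      rw [Finset.mem_coe, Multiset.mem_toFinset, mem_roots hQ0, IsRoot.def, eval_map]
      exact h1
    · rintro ⟨P, T⟩ hp ⟨P', T'⟩ hp' heq
      obtain ⟨h1, h2, x, h3, h4⟩ := hY P hp.1
      obtain ⟨-, -, x', h3', h4'⟩ := hY P' hp'.1
      have e1 : Y P = Y P' := congrArg Prod.fst heq
      have e2 : shift n P T = shift n P' T' := congrArg Prod.snd heq
      rw [← e1] at h4'
      obtain ⟨r1, r2⟩ := key ht hn hL hQ h1 h2 hp.1.1 hp'.1.1 h3 h3' h4 h4'
        (Finset.mem_coe.1 hp.2) (Finset.mem_coe.1 hp'.2) e2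
      exact Prod.ext r1 r2
  have hW : W.ncard = (CloseRoots t n L Q).ncard * (L + 1).choose t := by
    rw [Set.ncard_prod, Set.ncard_coe_finset, Finset.card_powersetCard, Finset.card_range]
  have hR : R.ncard ≤ n * 3 ^ (n + 1) := by
    rw [Set.ncard_prod, Set.ncard_coe_finset, Set.ncard_univ, Nat.card_eq_fintype_card,
      Fintype.card_fun, ZMod.card, Fintype.card_fin]
    refine Nat.mul_le_mul_right _ ?_
    refine (Multiset.toFinset_card_le _).trans ((card_roots' _).trans ?_)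
    exact natDegree_map_le.trans hQ.2.1
  rw [← hW]
  exact hle.trans hR

end Pool.Agent.Helper64.RS
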